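import Pool.Agent.C4N.Stm

/-!
# TOP: linear arboricity of C4-free graphs, theorem M0

`Helper91_C4N/Top.lean` (helper91) with the constants of the current `Stm.lean`.
-/

set_option autoImplicit false

open scoped BigOperators Classical

noncomputable section

namespace Pool.Agent.C4N.H86T

open Finset Filter
open Pool.Agent.LAG (near Big)

/-- `G` is a union of `N` linear forests. -/
def Dec {V : Type} (G : SimpleGraph V) (N : ℕ) : Prop :=
  ∃ F : Fin N → SimpleGraph V, (∀ i, LF (F i)) ∧ ⨆ i, F i = G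

lemma lf_bot {V : Type} : LF (⊥ : SimpleGraph V) := by
  refine ⟨SimpleGraph.isAcyclic_bot, fun v => ?_⟩
  have h : (⊥ : SimpleGraph V).neighborSet v = ∅ := by
    ext w; simp
  rw [h]; simp

lemma dec_bot {V : Type} (N : ℕ) : Dec (⊥ : SimpleGraph V) N := by
  refine ⟨fun _ => ⊥, fun _ => lf_bot, ?_⟩
  simp

lemma dec_sup {V : Type} {G H : SimpleGraph V} {N M : ℕ} (hG : Dec G N) (hH : Dec H M) :
    Dec (G ⊔ H) (N + M) := by
  obtain ⟨F, hF, rfl⟩ := hG
  obtain ⟨F', hF', rfl⟩ := hH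
  refine ⟨Fin.append F F', ?_, ?_⟩
  · intro i
    refine Fin.addCases (fun i => ?_) (fun i => ?_) i
    · rw [Fin.append_left]; exact hF i
    · rw [Fin.append_right]; exact hF' i
  · apply le_antisymm
    · refine iSup_le fun i => ?_
      refine Fin.addCases (fun i => ?_) (fun i => ?_) i
      · rw [Fin.append_left]; exact (le_iSup F i).trans le_sup_left
      · rw [Fin.append_right]; exact (le_iSup F' i).trans le_sup_right
    · refine sup_le (iSup_le fun i => ?_) (iSup_le fun i => ?_)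
      · have := le_iSup (Fin.append F F') (Fin.castAdd M i)
        rwa [Fin.append_left] at this
      · have := le_iSup (Fin.append F F') (Fin.natAdd N i)
        rwa [Fin.append_right] at this

lemma dec_mono {V : Type} {G : SimpleGraph V} {N M : ℕ} (hG : Dec G N) (h : N ≤ M) :
    Dec G M := by
  obtain ⟨d, rfl⟩ := Nat.exists_eq_add_of_le h
  have := dec_sup hG (dec_bot (V := V) d)
  rwa [sup_bot_eq] at this

lemma lf_comap {V W : Type} [Finite W] (f : V ↪ W) {F : SimpleGraph W} (h : LF F) :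
    LF (F.comap f) := by
  refine ⟨?_, fun v => ?_⟩
  · exact h.1.comap (SimpleGraph.Embedding.comap f F).toHom f.injective
  · refine le_trans ?_ (h.2 (f v))
    refine Set.ncard_le_ncard_of_injOn f (fun w hw => ?_) (f.injective.injOn) (Set.toFinite _)
    exact hw

lemma dec_comap {V W : Type} [Finite W] (f : V ↪ W) {G : SimpleGraph W} {N : ℕ}
    (h : Dec G N) : Dec (G.comap f) N := by
  obtain ⟨F, hF, rfl⟩ := h
  refine ⟨fun i => (F i).comap f, fun i => lf_comap f (hF i), ?_⟩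
  ext u v
  simp

lemma dg_mono {V : Type} [Finite V] {G H : SimpleGraph V} (h : G ≤ H) (v : V) :
    dg G v ≤ dg H v := by
  refine Set.ncard_le_ncard (fun w hw => ?_) (Set.toFinite _)
  exact h hw

/-- large numbers -/
lemma ev_large (a : ℝ) (ha : 0 < a) (B : ℝ) : ∀ᶠ k : ℕ in atTop, B ≤ (k : ℝ) ^ a :=
  ((tendsto_rpow_atTop ha).comp tendsto_natCast_atTop_atTop).eventually_ge_atTop B

/-- TOP. -/
theorem top (ite : ITEStmt) (rou : ROUStmt) (sta : STAStmt) (cye : CYEStmt) (viz : VIZStmt)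
    (topc : Pool.Agent.CG.TopcStmt) : TOPStmt := by
  obtain ⟨g0, hg0⟩ := topc
  set L : ℕ := max 3 g0 with hL
  have hL0 : (0 : ℝ) < L := by
    have : 0 < L := by omega
    exact_mod_cast this
  obtain ⟨J, hJ⟩ : ∃ J : ℕ, (1 - 1 / 11000 : ℝ) ^ J < 2 / L :=
    exists_pow_lt_of_lt_one (by positivity) (by norm_num)
  obtain ⟨C, c, hc0, hc1, hite⟩ := ite J L
  obtain ⟨C', c', hc0', hc1', hrou⟩ := rou C L c hc0 hc1
  obtain ⟨K0, hrou⟩ := hrou 1 one_pos
  set a : ℝ := (1 - 1 / 9000 : ℝ) ^ J with ha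
  have ha0 : 0 < a := by rw [ha]; positivity
  obtain ⟨k0, hite⟩ := hite (a / 100000) (by positivity)
  obtain ⟨k1, hk1⟩ : ∃ k1 : ℕ, ∀ k : ℕ, k1 ≤ k → k0 ≤ k ∧ 1 ≤ k ∧ (L : ℝ) ≤ (k : ℝ) ^ (a / 100000) ∧
      (K0 : ℝ) ≤ (k : ℝ) ^ a := by
    have := (eventually_ge_atTop k0).and ((eventually_ge_atTop 1).and
      ((ev_large (a / 100000) (by positivity) L).and (ev_large a ha0 K0)))
    obtain ⟨k1, h⟩ := eventually_atTop.mp this
    exact ⟨k1, fun k hk => h k hk⟩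
  refine ⟨4 * k1 + C' + 1 + 2 * C' + 1, ?_⟩
  intro V _ G Δ hΔ hC4
  change Dec G _
  rcases Nat.lt_or_ge (Δ / 2 + 1) k1 with hsmall | hbig
  · -- small degrees
    have h : Dec G (2 * Δ) := viz V G Δ hΔ
    exact dec_mono h (by omega)
  -- large degrees
  set k : ℕ := Δ / 2 + 1 with hk
  obtain ⟨h1, h2, h3, h4⟩ := hk1 k hbig
  have hk1' : (1 : ℝ) ≤ k := by exact_mod_cast h2
  obtain ⟨W, hW, f, H, hH, hHc, hHd⟩ := sta V G (2 * k) hC4 (fun v => (hΔ v).trans (by omega))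
  obtain ⟨n, F, R', hn, hF, hR', hsup, hlo, hhi, hst⟩ := hite k h1 W H hHc hHd
  set K : ℕ := k - n with hK
  have hKK0 : K0 ≤ K := by
    have : (K0 : ℝ) ≤ K := h4.trans hlo
    exact_mod_cast this
  have hA1 : (1 : ℝ) ≤ (k : ℝ) ^ (a / 100000) := Real.one_le_rpow hk1' (by positivity)
  have hK1 : (1 : ℝ) ≤ (K : ℝ) := by
    refine le_trans ?_ hlo
    exact Real.one_le_rpow hk1' (by positivity)
  have hQ : (1 : ℝ) ≤ (k : ℝ) ^ 2 := one_le_pow₀ hk1'
  have hKL : (K : ℝ) ^ L ≤ (k : ℝ) ^ 2 := by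
    calc (K : ℝ) ^ L ≤ ((k : ℝ) ^ ((1 - 1 / 11000 : ℝ) ^ J)) ^ L :=
          pow_le_pow_left₀ (by linarith) hhi L
      _ = (k : ℝ) ^ ((1 - 1 / 11000 : ℝ) ^ J * L) := by
          rw [← Real.rpow_natCast, ← Real.rpow_mul (by linarith)]
      _ ≤ (k : ℝ) ^ ((2 : ℕ) : ℝ) := by
          apply Real.rpow_le_rpow_of_exponent_le hk1'
          rw [lt_div_iff₀ hL0] at hJ
          push_cast
          exact hJ.le
      _ = (k : ℝ) ^ 2 := Real.rpow_natCast _ _
  obtain ⟨E, hER, hEd, hEb⟩ := cye W R' L ((k : ℝ) ^ (a / 100000)) K ((k : ℝ) ^ 2) (by positivity) hst.ct hK1 hKL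
  have hEd' : ∀ v, (dg E v : ℝ) ≤ (K : ℝ) ^ (1 / 50000 : ℝ) := by
    intro v
    calc (dg E v : ℝ) ≤ L * (k : ℝ) ^ (a / 100000) := hEd v
      _ ≤ (k : ℝ) ^ (a / 100000) * (k : ℝ) ^ (a / 100000) :=
          mul_le_mul_of_nonneg_right h3 (by positivity)
      _ = ((k : ℝ) ^ a) ^ (1 / 50000 : ℝ) := by
          rw [← Real.rpow_add (by linarith), ← Real.rpow_mul (by linarith)]
          congr 1
          ring
      _ ≤ (K : ℝ) ^ (1 / 50000 : ℝ) := Real.rpow_le_rpow (by positivity) hlo (by norm_num)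
  obtain ⟨n2, F2, R2, hn2, hF2, hR2, hsup2, -, -, hst2, hdE⟩ :=
    hrou K hKK0 ((k : ℝ) ^ (a / 100000)) ((k : ℝ) ^ 2) hA1 hQ W R' E hst hER hEd'
  -- the rest
  have hd1 : Dec (R2 \ E) ((2 * (K - n2) + C') / 2 + 1) := by
    refine hg0 W (R2 \ E) (2 * (K - n2) + C') (fun v => ?_) ?_
    · exact (dg_mono sdiff_le v).trans (hst2.hi v)
    · intro v w hw
      have h5 : L < w.length := hEb R2 hR2 v w hw
      exact lt_of_le_of_lt (le_max_right 3 g0) h5
  have hd2 : Dec (R2 ⊓ E) (2 * C') := viz W (R2 ⊓ E) C' hdE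
  have hd3 : Dec (R2 \ E ⊔ R2 ⊓ E) _ := dec_sup hd1 hd2
  rw [sup_comm, sup_inf_sdiff] at hd3
  have hd4 : Dec R' ((2 * (K - n2) + C') / 2 + 1 + 2 * C' + n2) := by
    have := dec_sup hd3 (⟨F2, hF2, rfl⟩ : Dec (⨆ i, F2 i) n2)
    rwa [hsup2] at this
  have hd5 : Dec H ((2 * (K - n2) + C') / 2 + 1 + 2 * C' + n2 + n) := by
    have := dec_sup hd4 (⟨F, hF, rfl⟩ : Dec (⨆ i, F i) n)
    rwa [hsup] at this
  have hd6 := dec_comap f hd5
  rw [hH] at hd6
  refine dec_mono hd6 ?_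
  omega

end Pool.Agent.C4N.H86T
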