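import Pool.Agent.C4N.Stm2

/-!
# TOP2: linear arboricity of C4-free graphs, the exact theorem (assembly)
-/

set_option autoImplicit false

open scoped BigOperators Classical

noncomputable section

namespace Pool.Agent.C4N.H86

open Finset Filter
open Pool.Agent.LAG (near Big)

/-- `G` is a union of `N` linear forests. -/
def De {V : Type} (G : SimpleGraph V) (N : ℕ) : Prop :=
  ∃ F : Fin N → SimpleGraph V, (∀ i, LF (F i)) ∧ ⨆ i, F i = G

lemma de_sup {V : Type} {G H : SimpleGraph V} {N M : ℕ} (hG : De G N) (hH : De H M) :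
    De (G ⊔ H) (N + M) := by
  obtain ⟨F, hF, rfl⟩ := hG
  obtain ⟨F', hF', rfl⟩ := hH
  refine ⟨Fin.append F F', ?_, ?_⟩
  · intro i
    refine Fin.addCases (fun i => ?_) (fun i => ?_) i
    · rw [Fin.append_left]; exact hF i
    · rw [Fin.append_right]; exact hF' i
  · apply le_antisymm
    · refine iSup_le fun i => ?_
      refine Fin.addCases (fun i => ?_) (fun i => ?_) i
      · rw [Fin.append_left]; exact (le_iSup F i).trans le_sup_left
      · rw [Fin.append_right]; exact (le_iSup F' i).trans le_sup_right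
    · refine sup_le (iSup_le fun i => ?_) (iSup_le fun i => ?_)
      · have := le_iSup (Fin.append F F') (Fin.castAdd M i)
        rwa [Fin.append_left] at this
      · have := le_iSup (Fin.append F F') (Fin.natAdd N i)
        rwa [Fin.append_right] at this

lemma lf_comap {V W : Type} [Finite W] (f : V ↪ W) {F : SimpleGraph W} (h : LF F) :
    LF (F.comap f) := by
  refine ⟨?_, fun v => ?_⟩
  · exact h.1.comap (SimpleGraph.Embedding.comap f F).toHom f.injective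
  · refine le_trans ?_ (h.2 (f v))
    refine Set.ncard_le_ncard_of_injOn f (fun w hw => ?_) (f.injective.injOn) (Set.toFinite _)
    exact hw

lemma de_comap {V W : Type} [Finite W] (f : V ↪ W) {G : SimpleGraph W} {N : ℕ}
    (h : De G N) : De (G.comap f) N := by
  obtain ⟨F, hF, rfl⟩ := h
  refine ⟨fun i => (F i).comap f, fun i => lf_comap f (hF i), ?_⟩
  ext u v
  simp

lemma near_mono {V : Type} {G H : SimpleGraph V} (h : G ≤ H) {r : ℕ} {x y : V}
    (hn : near G r x y) : near H r x y := by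
  obtain ⟨p, hp⟩ := hn
  exact ⟨p.mapLe h, by simpa using hp⟩

/-- large numbers -/
lemma ev_large (a : ℝ) (ha : 0 < a) (B : ℝ) : ∀ᶠ k : ℕ in atTop, B ≤ (k : ℝ) ^ a :=
  ((tendsto_rpow_atTop ha).comp tendsto_natCast_atTop_atTop).eventually_ge_atTop B

/-- TOP2. -/
theorem top2 (ite : ITE2Stmt) (rou : ROU2Stmt) (eli : ELIStmt) (fin : FIN2Stmt) (sta : STAStmt)
    (cye : CYEStmt) : TOP2Stmt := by
  obtain ⟨g0, hfin⟩ := fin
  set L : ℕ := max 3 g0 with hL
  have hL0 : (0 : ℝ) < L := by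
    have : 0 < L := by omega
    exact_mod_cast this
  obtain ⟨J, hJ⟩ : ∃ J : ℕ, (1 - 1 / 11000 : ℝ) ^ J < 2 / L :=
    exists_pow_lt_of_lt_one (by positivity) (by norm_num)
  obtain ⟨c, hc0, hc1, hite⟩ := ite J L
  obtain ⟨C1, c', hc0', hc1', hrou⟩ := rou L c hc0 hc1
  obtain ⟨ρ, hrou⟩ := hrou 400
  obtain ⟨K0, hrou⟩ := hrou 1 one_pos
  obtain ⟨K1, heli⟩ := eli C1 c' hc0' hc1'
  set a : ℝ := (1 - 1 / 9000 : ℝ) ^ J with ha
  have ha0 : 0 < a := by rw [ha]; positivity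
  obtain ⟨k0, hite⟩ := hite ρ (a / 100000) (by positivity)
  obtain ⟨k1, hk1⟩ : ∃ k1 : ℕ, ∀ k : ℕ, k1 ≤ k → k0 ≤ k ∧ 1 ≤ k ∧
      (L : ℝ) ≤ (k : ℝ) ^ (a / 100000) ∧ (K0 : ℝ) ≤ (k : ℝ) ^ a ∧ (K1 : ℝ) ≤ (k : ℝ) ^ a := by
    have := (eventually_ge_atTop k0).and ((eventually_ge_atTop 1).and
      ((ev_large (a / 100000) (by positivity) L).and ((ev_large a ha0 K0).and
        (ev_large a ha0 K1))))
    obtain ⟨k1, h⟩ := eventually_atTop.mp this
    exact ⟨k1, fun k hk => h k hk⟩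
  refine ⟨2 * k1, ?_⟩
  intro V _ G Δ hΔ0 hΔ hC4
  change De G _
  set k : ℕ := (Δ + 1) / 2 with hk
  obtain ⟨h1, h2, h3, h4, h4'⟩ := hk1 k (by omega)
  have hk1' : (1 : ℝ) ≤ k := by exact_mod_cast h2
  obtain ⟨W, hW, f, H, hH, hHc, hHd⟩ := sta V G (2 * k) hC4 (fun v => (hΔ v).trans (by omega))
  obtain ⟨n, F, R', hn, hF, hR', hsup, hlo, hhi, hst, hsep⟩ := hite k h1 W H hHc hHd
  set K : ℕ := k - n with hK
  have hKK0 : K0 ≤ K := by
    have : (K0 : ℝ) ≤ K := h4.trans hlo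
    exact_mod_cast this
  have hKK1 : K1 ≤ K := by
    have : (K1 : ℝ) ≤ K := h4'.trans hlo
    exact_mod_cast this
  have hA1 : (1 : ℝ) ≤ (k : ℝ) ^ (a / 100000) := Real.one_le_rpow hk1' (by positivity)
  have hK1 : (1 : ℝ) ≤ (K : ℝ) := by
    refine le_trans ?_ hlo
    exact Real.one_le_rpow hk1' (by positivity)
  have hQ : (1 : ℝ) ≤ (k : ℝ) ^ 2 := one_le_pow₀ hk1'
  have hKL : (K : ℝ) ^ L ≤ (k : ℝ) ^ 2 := by
    calc (K : ℝ) ^ L ≤ ((k : ℝ) ^ ((1 - 1 / 11000 : ℝ) ^ J)) ^ L :=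
          pow_le_pow_left₀ (by linarith) hhi L
      _ = (k : ℝ) ^ ((1 - 1 / 11000 : ℝ) ^ J * L) := by
          rw [← Real.rpow_natCast, ← Real.rpow_mul (by linarith)]
      _ ≤ (k : ℝ) ^ ((2 : ℕ) : ℝ) := by
          apply Real.rpow_le_rpow_of_exponent_le hk1'
          rw [lt_div_iff₀ hL0] at hJ
          push_cast
          exact hJ.le
      _ = (k : ℝ) ^ 2 := Real.rpow_natCast _ _
  obtain ⟨E, hER, hEd, hEb⟩ :=
    cye W R' L ((k : ℝ) ^ (a / 100000)) K ((k : ℝ) ^ 2) (by positivity) hst.ct hK1 hKL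
  have hEd' : ∀ v, (dg E v : ℝ) ≤ (K : ℝ) ^ (1 / 50000 : ℝ) := by
    intro v
    calc (dg E v : ℝ) ≤ L * (k : ℝ) ^ (a / 100000) := hEd v
      _ ≤ (k : ℝ) ^ (a / 100000) * (k : ℝ) ^ (a / 100000) :=
          mul_le_mul_of_nonneg_right h3 (by positivity)
      _ = ((k : ℝ) ^ a) ^ (1 / 50000 : ℝ) := by
          rw [← Real.rpow_add (by linarith), ← Real.rpow_mul (by linarith)]
          congr 1
          ring
      _ ≤ (K : ℝ) ^ (1 / 50000 : ℝ) := Real.rpow_le_rpow (by positivity) hlo (by norm_num)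
  obtain ⟨n2, F2, R2, hn2, hdec, hlo2, hhi2, hst2, hsep2, hsp2, hdE, hmE⟩ :=
    hrou K hKK0 ((k : ℝ) ^ (a / 100000)) ((k : ℝ) ^ 2) hA1 hQ W R' E hst hsep hER hEd'
  obtain ⟨F3, R3, hF3, hR3, hsup3, hdis, hdg3, hsep3, hsp3⟩ :=
    heli K n2 hKK1 hn2 hlo2 hhi2 W R' R2 E F2 hst.c4 (fun v => ⟨hst.lo v, hst.hi v⟩) hdec
      (fun v => ⟨hst2.lo v, hst2.hi v⟩) hsp2 hst2.sp hEd' hdE hmE hsep2
  -- the rest
  have hbig : Big R3 g0 := by
    intro v w hw
    have h5 : R3 \ E = R3 := sdiff_eq_left.2 hdis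
    have h6 := hEb R3 hR3
    rw [h5] at h6
    exact lt_of_le_of_lt (le_max_right 3 g0) (h6 v w hw)
  have hsep4 : Sep R3 R3 (K - n2) 400 := fun x y hx hy hxy hn =>
    hsep3 x y hx hy hxy (near_mono hR3 hn)
  have hd1 : De R3 (K - n2 + 1) := hfin (K - n2) W R3 hbig hdg3 hsp3 hsep4
  have hd2 : De R' (K - n2 + 1 + n2) := by
    have := de_sup hd1 (⟨F3, hF3, rfl⟩ : De (⨆ i, F3 i) n2)
    rwa [hsup3] at this
  have hd3 : De H (K - n2 + 1 + n2 + n) := by
    have := de_sup hd2 (⟨F, hF, rfl⟩ : De (⨆ i, F i) n)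
    rwa [hsup] at this
  have hd4 := de_comap f hd3
  rw [hH] at hd4
  have h7 : K - n2 + 1 + n2 + n = k + 1 := by omega
  rw [h7] at hd4
  exact hd4

end Pool.Agent.C4N.H86
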